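import Pool.Agent.Q173.KS.Stm

set_option autoImplicit false

/-!
# Project KS (helper173), job SUM (helper123)
-/

namespace Pool.Agent.Q123.KS

open Pool.Agent.Q173.KS Finset

/-- JOB SUM -/
theorem sum : S_SUM := by
  intro α _ X j Φ ℓ hℓ
  unfold ES
  rw [← EP_sum]
  have h : EP ℓ (fun σ => ∑ S ∈ X.powersetCard j, Φ (S.map σ.toEmbedding)) =
      EP ℓ (fun _ => ∑ S ∈ X.powersetCard j, Φ S) := by
    refine EP_congr_fix (Y := {y | y ∉ X})
      (fun o ho => ⟨fun h => h (hℓ o ho).1, fun h => h (hℓ o ho).2⟩) fun σ hσ => ?_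
    have hX : X.map σ.toEmbedding = X := by
      refine Finset.eq_of_subset_of_card_le ?_ (by rw [Finset.card_map])
      intro y hy
      obtain ⟨x, hx, rfl⟩ := Finset.mem_map.1 hy
      by_contra hn
      have h1 : σ (σ x) = σ x := hσ (σ x) hn
      have h2 : σ x = x := σ.injective h1
      apply hn
      show σ x ∈ X
      rw [h2]
      exact hx
    have h3 : X.powersetCard j =
        (X.powersetCard j).map (Finset.mapEmbedding σ.toEmbedding).toEmbedding := by
      rw [← Finset.powersetCard_map, hX]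
    conv_rhs => rw [h3, Finset.sum_map]
    rfl
  rw [h, EP_const]

end Pool.Agent.Q123.KS
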